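import Mathlib
import Pool.Agent.H118W.KSD

/-!
`K_{σδ}`-spaces are preserved when `C_p(X)` and `C_p(Y)` are linearly homeomorphic.
-/

set_option autoImplicit false

namespace Pool.Agent.Results.MP_bdd006_gt.LinearCase

/-- `X` is a `K_{σδ}`-space: it embeds in a compact Hausdorff space as a countable intersection of
`σ`-compact sets. -/
def IsKSigmaDelta (X : Type) [TopologicalSpace X] : Prop :=
  ∃ (K : Type) (_ : TopologicalSpace K), CompactSpace K ∧ T2Space K ∧
    ∃ e : X → K, Topology.IsEmbedding e ∧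
      ∃ A : ℕ → ℕ → Set K, (∀ n m, IsCompact (A n m)) ∧ Set.range e = ⋂ n, ⋃ m, A n m

/-- The topology of pointwise convergence on the set `C(X, ℝ)` of continuous functions. -/
@[reducible] def pointwiseTopology (X : Type) [TopologicalSpace X] : TopologicalSpace C(X, ℝ) :=
  TopologicalSpace.induced (fun f : C(X, ℝ) => (f : X → ℝ)) inferInstance

/-- Let `X`, `Y` be Tychonoff spaces such that `C_p(X)` and `C_p(Y)` are linearly homeomorphic.
If `Y` is a `K_{σδ}`-space, so is `X`. -/
theorem result :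
    ∀ (X Y : Type) [TopologicalSpace X] [TopologicalSpace Y] [T35Space X] [T35Space Y],
      (∃ L : C(X, ℝ) ≃ₗ[ℝ] C(Y, ℝ),
        @Continuous C(X, ℝ) C(Y, ℝ) (pointwiseTopology X) (pointwiseTopology Y) (fun f => L f) ∧
        @Continuous C(Y, ℝ) C(X, ℝ) (pointwiseTopology Y) (pointwiseTopology X)
          (fun g => L.symm g)) →
      IsKSigmaDelta Y → IsKSigmaDelta X := by
  intro X Y _ _ _ _ hL hY
  obtain ⟨L, h1, h2⟩ := hL
  exact Pool.Agent.H118W.KSD.main Y X hY ⟨L.symm, h2, h1⟩

end Pool.Agent.Results.MP_bdd006_gt.LinearCase
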